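import Pool.Agent.H20.SM.Targets

/-!
# Special moduli: the sizes of the parameters
-/

set_option autoImplicit false

open NumberField NumberField.InfinitePlace Complex Filter Topology MeasureTheory

namespace Pool.Agent.H36.SM

open Pool.Agent.H28.RC Pool.Agent.H25.HK Pool.Agent.H37.CV Pool.Agent.H20.SM

theorem sum_biUnion_le' {ι α : Type} [DecidableEq α] (s : Finset ι) (t : ι → Finset α) (f : α → ℝ)
    (hf : ∀ a, 0 ≤ f a) : ∑ a ∈ s.biUnion t, f a ≤ ∑ i ∈ s, ∑ a ∈ t i, f a := by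
  classical
  induction s using Finset.induction_on with
  | empty => simp
  | insert a s ha ih =>
    rw [Finset.biUnion_insert, Finset.sum_insert ha]
    have h1 := Finset.sum_union_inter (s₁ := t a) (s₂ := s.biUnion t) (f := f)
    have h2 : 0 ≤ ∑ x ∈ t a ∩ s.biUnion t, f x := Finset.sum_nonneg fun x _ => hf x
    linarith

open scoped Classical in
/-- (PAR) the sizes of the parameters. -/
theorem pf_PAR (hCRT : T_CRT) : T_PAR := by
  intro F _ _ _ _ A
  refine ⟨2, fun x q hx hq => ?_⟩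
  obtain ⟨-, -, h3, h4, h5, h6⟩ := hCRT F q hq.sq
  have hsq : Squarefree q := hq.sq.1
  have hx0 : (0 : ℝ) < x := by linarith
  have hlx : 0 < Real.log x := Real.log_pos (by linarith)
  have hsx : 0 < Real.sqrt x := Real.sqrt_pos.2 hx0
  have hpp : ∀ p ∈ q.primeFactors, (0 : ℝ) < (p : ℝ) := fun p hp =>
    Nat.cast_pos.2 (Nat.prime_of_mem_primeFactors hp).pos
  have hlog : Real.log q = ∑ p ∈ q.primeFactors, Real.log p := by
    have h7 : (q : ℝ) = ∏ p ∈ q.primeFactors, (p : ℝ) := by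
      have h8 := Nat.prod_primeFactors_of_squarefree hsq
      calc (q : ℝ) = ((∏ p ∈ q.primeFactors, p : ℕ) : ℝ) := by rw [h8]
        _ = _ := by push_cast; rfl
    rw [h7, Real.log_prod (fun p hp => (hpp p hp).ne')]
  have hlow : (q.primeFactors.card : ℝ) * (Real.log x / 2) ≤ Real.log q := by
    rw [hlog, ← nsmul_eq_mul]
    refine Finset.card_nsmul_le_sum _ _ _ fun p hp => ?_
    rw [← Real.log_sqrt hx0.le]
    exact Real.log_le_log hsx (hq.low p hp)
  have hupp : Real.log q ≤ (q.primeFactors.card : ℝ) * Real.log x := by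
    rw [hlog, ← nsmul_eq_mul]
    refine Finset.sum_le_card_nsmul _ _ _ fun p hp => ?_
    exact Real.log_le_log (hpp p hp) (hq.upp p hp)
  refine ⟨?_, ?_, ?_, ?_⟩
  · calc Real.log x ^ (A + 1) / 2 = Real.log x ^ A * (Real.log x / 2) := by ring
      _ ≤ (q.primeFactors.card : ℝ) * (Real.log x / 2) :=
        mul_le_mul_of_nonneg_right hq.lo (by positivity)
      _ ≤ _ := hlow
  · calc Real.log q ≤ (q.primeFactors.card : ℝ) * Real.log x := hupp
      _ ≤ (2 * Real.log x ^ A) * Real.log x := mul_le_mul_of_nonneg_right hq.hi hlx.le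
      _ = _ := by ring
  · have hsub : pf (qi F q) ⊆ q.primeFactors.biUnion fun p =>
        (pf (qi F q)).filter fun P => (p : 𝓞 F) ∈ P.1 := by
      intro P hP
      obtain ⟨p, hp, hpP⟩ := (h3 P).1 hP
      exact Finset.mem_biUnion.2 ⟨p, hp, Finset.mem_filter.2 ⟨hP, hpP⟩⟩
    have hnn : ∀ P : PrI F, 0 ≤ (np P)⁻¹ := fun P => inv_nonneg.2 (Nat.cast_nonneg _)
    calc rc (qi F q) ≤ ∑ P ∈ q.primeFactors.biUnion (fun p =>
          (pf (qi F q)).filter fun P => (p : 𝓞 F) ∈ P.1), (np P)⁻¹ :=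
        Finset.sum_le_sum_of_subset_of_nonneg hsub fun P _ _ => hnn P
      _ ≤ ∑ p ∈ q.primeFactors, ∑ P ∈ (pf (qi F q)).filter (fun P => (p : 𝓞 F) ∈ P.1),
          (np P)⁻¹ := sum_biUnion_le' _ _ _ hnn
      _ ≤ ∑ p ∈ q.primeFactors, (Module.finrank ℚ F : ℝ) * (Real.sqrt x)⁻¹ := by
        refine Finset.sum_le_sum fun p hp => ?_
        have h9 : ∀ P ∈ (pf (qi F q)).filter (fun P => (p : 𝓞 F) ∈ P.1),
            (np P)⁻¹ ≤ (Real.sqrt x)⁻¹ := by
          intro P hP
          rw [Finset.mem_filter] at hP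
          rw [h5 p hp P hP.1 hP.2]
          exact inv_anti₀ hsx (hq.low p hp)
        refine (Finset.sum_le_card_nsmul _ _ _ h9).trans ?_
        rw [h4 p hp, nsmul_eq_mul]
      _ = (q.primeFactors.card : ℝ) * ((Module.finrank ℚ F : ℝ) * (Real.sqrt x)⁻¹) := by
        rw [Finset.sum_const, nsmul_eq_mul]
      _ ≤ (2 * Real.log x ^ A) * ((Module.finrank ℚ F : ℝ) * (Real.sqrt x)⁻¹) :=
        mul_le_mul_of_nonneg_right hq.hi (by positivity)
      _ = _ := by
        rw [div_eq_mul_inv]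
        ring
  · rw [h6, Real.log_pow]

end Pool.Agent.H36.SM
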