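import Pool.Agent.H36.SM.F1qe

/-!
# Special moduli: the sums of the first moment
-/

set_option autoImplicit false

open NumberField NumberField.InfinitePlace Complex Filter Topology

namespace Pool.Agent.H36.SM

open Pool.Agent.H28.RC Pool.Agent.H25.HK Pool.Agent.H37.CV Pool.Agent.H20.SM
open Pool.Agent.H94.CV.F1 (nm_ge_one nm_top pf_top one_le_discr top_mem lam_top)

/-- (F1) the sums of the first moment. -/
theorem pf_F1q (hNCR : T_NCR) (hPAR : T_PAR) (hNCG : T_NCG) (hCHT : T_CHT) (hCH1 : T_CH1) :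
    T_F1q := by
  classical
  intro F _ _ _ _ A ε₁ η hA hε₁ hε₁' hη
  obtain ⟨C₀, hC₀, hT'⟩ := term_le a_CX a_WV
  obtain ⟨C₁, hC₁⟩ := a_WV.1 1
  have hC₁0 : 0 ≤ C₁ := le_trans (by positivity) (hC₁ 1 one_pos).1
  set e : ℝ := 1 / (64 * (Module.finrank ℚ F : ℝ)) with he
  have hN1 : (1 : ℝ) ≤ (Module.finrank ℚ F : ℝ) := by
    have : 1 ≤ Module.finrank ℚ F := Module.finrank_pos
    exact_mod_cast this
  have he0 : 0 < e := by positivity
  have he1 : e ≤ 1 / 64 := by
    rw [he]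
    exact one_div_le_one_div_of_le (by norm_num) (by linarith)
  obtain ⟨Ch, hCh0, hCh⟩ := hCHT F e he0 he1
  obtain ⟨Ch1, hCh10, hCh1⟩ := hCH1 F e he0 he1
  have hT : Trm F C₀ := fun X M n hX hM hn => hT' F X M n hX hM hn
  obtain ⟨c₁, CN, x₀, hc₁, -, hpar⟩ :=
    par_exists hNCR hPAR F A ε₁ (η / 2) C₀ Ch Ch1 hA hε₁ hε₁'
  refine ⟨max x₀ (2 * C₁ / η), fun x q hx hSp => ?_⟩
  obtain ⟨u, v, hp⟩ := hpar x q ((le_max_left _ _).trans hx) hSp
  have hxC : 2 * C₁ / η ≤ x := (le_max_right _ _).trans hx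
  have hx4 := hp.x4
  have hxq := hp.xq
  have hq0 : (0 : ℝ) < q := by linarith
  have hX0 : 0 < Xr F q := by linarith [hp.xr]
  have hM1 := hp.mo
  set X := Xr F q with hX
  set M := Mo F ε₁ q with hM
  have hnorm : ∀ (n : Ideal (𝓞 F)), n ≠ ⊥ →
      ‖lam X M n * ((nm n ^ (-(1 / 2) : ℝ) : ℝ) : ℂ)‖ =
        ‖lam X M n‖ * nm n ^ (-(1 / 2) : ℝ) := by
    intro n hn
    rw [norm_mul, Complex.norm_real, Real.norm_of_nonneg
      (Real.rpow_nonneg (by linarith [nm_ge_one hn]) _)]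
  have hsumm : ∀ d : Ideal (𝓞 F),
      Summable fun n : {n : Ideal (𝓞 F) // (n, ⊤) ∈ CP (qi F q) d} =>
        ‖lam X M n.1 * ((nm n.1 ^ (-(1 / 2) : ℝ) : ℝ) : ℂ)‖ := by
    intro d
    refine (Pool.Agent.H94.CV.F1.summ a_CX a_WV a_DV a_ZK F (qi F q) d hX0 hM1).congr
      fun n => ?_
    exact (hnorm n.1 n.2.1).symm
  constructor
  · set P := {n : Ideal (𝓞 F) // (n, ⊤) ∈ CP (qi F q) (qi F q)} with hP
    set f : P → ℂ := fun n => lam X M n.1 * ((nm n.1 ^ (-(1 / 2) : ℝ) : ℝ) : ℂ) with hf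
    set n₀ : P := ⟨⊤, top_mem F _ _⟩ with hn₀
    have hsn : Summable fun n : P => ‖f n‖ := hsumm (qi F q)
    have hs : Summable f := hsn.of_norm
    have h1 : ∑' n, f n = f n₀ + ∑' n, (if n = n₀ then 0 else f n) :=
      hs.tsum_eq_add_tsum_ite n₀
    have h2 : f n₀ = wf (1 / X) := by
      show lam X M (⊤ : Ideal (𝓞 F)) * ((nm (⊤ : Ideal (𝓞 F)) ^ (-(1 / 2) : ℝ) : ℝ) : ℂ) = _
      rw [lam_top a_CX hM1, nm_top, Real.one_rpow]
      push_cast
      rw [mul_one]
    have h3 : ‖wf (1 / X) - 1‖ ≤ η / 2 := by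
      have h31 := (hC₁ (1 / X) (by positivity)).2
      rw [pow_one] at h31
      have h32 : x ≤ X := hxq.trans hp.xr
      have h33 : C₁ ≤ η / 2 * X := by
        rw [div_le_iff₀ hη] at hxC
        have := mul_le_mul_of_nonneg_left h32 hη.le
        linarith
      refine h31.trans ?_
      rw [mul_one_div, div_le_iff₀ hX0]
      exact h33
    have hg : Summable fun n : P => ‖(if n = n₀ then 0 else f n)‖ := by
      refine Summable.of_nonneg_of_le (fun n => norm_nonneg _) (fun n => ?_) hsn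
      split_ifs
      · rw [norm_zero]
        exact norm_nonneg _
      · exact le_rfl
    have h4 : ‖∑' n, (if n = n₀ then 0 else f n)‖ ≤ η / 2 := by
      refine (norm_tsum_le_tsum_norm hg).trans (hg.tsum_le_of_sum_le fun s => ?_)
      have h5 : ∑ n ∈ s, ‖(if n = n₀ then 0 else f n)‖ =
          ∑ n ∈ (s.erase n₀).map (Function.Embedding.subtype _),
            ‖lam X M n‖ * nm n ^ (-(1 / 2) : ℝ) := by
        rw [Finset.sum_map]
        have h6 : ∑ n ∈ s, ‖(if n = n₀ then 0 else f n)‖ =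
            ∑ n ∈ s.erase n₀, ‖(if n = n₀ then 0 else f n)‖ := by
          refine (Finset.sum_subset (Finset.erase_subset _ _) fun n hn hn' => ?_).symm
          have h7 : n = n₀ := by
            by_contra h
            exact hn' (Finset.mem_erase.2 ⟨h, hn⟩)
          rw [if_pos h7, norm_zero]
        rw [h6]
        refine Finset.sum_congr rfl fun n hn => ?_
        rw [if_neg (Finset.mem_erase.1 hn).1]
        exact hnorm n.1 n.2.1
      rw [h5]
      refine sum_q hNCG hp hSp (by positivity) hc₁ (by linarith) hCh0.le hT hCh _ ?_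
      intro n hn
      rw [Finset.mem_map] at hn
      obtain ⟨n', hn', rfl⟩ := hn
      exact ⟨n'.2, fun h => (Finset.mem_erase.1 hn').1 (Subtype.ext h)⟩
    have h5 : (∑' n, f n) - 1 = (wf (1 / X) - 1) + ∑' n, (if n = n₀ then 0 else f n) := by
      rw [h1, h2]
      ring
    rw [h5]
    refine (norm_add_le _ _).trans ((add_le_add h3 h4).trans ?_)
    linarith
  · intro d hd _
    set P := {n : Ideal (𝓞 F) // (n, ⊤) ∈ CP (qi F q) d} with hP
    set f : P → ℂ := fun n => lam X M n.1 * ((nm n.1 ^ (-(1 / 2) : ℝ) : ℝ) : ℂ) with hf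
    have hsn : Summable fun n : P => ‖f n‖ := hsumm d
    have h1 : (nc (qi F q) d : ℝ) * ‖∑' n, f n‖ ≤ (nc (qi F q) d : ℝ) * ∑' n, ‖f n‖ :=
      mul_le_mul_of_nonneg_left (norm_tsum_le_tsum_norm hsn) (Nat.cast_nonneg _)
    refine h1.trans ?_
    rw [← tsum_mul_left]
    refine (hsn.mul_left _).tsum_le_of_sum_le fun s => ?_
    have h5 : ∑ n ∈ s, (nc (qi F q) d : ℝ) * ‖f n‖ = (nc (qi F q) d : ℝ) *
        ∑ n ∈ s.map (Function.Embedding.subtype _), ‖lam X M n‖ * nm n ^ (-(1 / 2) : ℝ) := by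
      rw [Finset.sum_map, Finset.mul_sum]
      refine Finset.sum_congr rfl fun n _ => ?_
      congr 1
      exact hnorm n.1 n.2.1
    rw [h5]
    refine sum_d hNCG hp hSp hc₁ (by linarith) hCh0.le hCh10.le hT hCh hCh1 d hd _ ?_
    intro n hn
    rw [Finset.mem_map] at hn
    obtain ⟨n', hn', rfl⟩ := hn
    exact n'.2

end Pool.Agent.H36.SM
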