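import Pool.Agent.H20.SM.Targets
import Pool.Agent.H94.CV.F1

/-!
# Special moduli, the first moment: preparations
-/

set_option autoImplicit false

open NumberField NumberField.InfinitePlace Complex Filter Topology

namespace Pool.Agent.H36.SM

open Pool.Agent.H28.RC Pool.Agent.H25.HK Pool.Agent.H37.CV Pool.Agent.H20.SM
open Pool.Agent.H94.CV.F1 (nm_ge_one nm_top pf_top lam_le)

/-- the weight of `(n, ⊤)` -/
theorem wt_top {K : Type} [Field K] [NumberField K] (n : Ideal (𝓞 K)) :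
    wt (n, (⊤ : Ideal (𝓞 K))) = (2 : ℝ) ^ (pf n).card * nm n ^ (-(1 / 2) : ℝ) := by
  unfold wt
  rw [pf_top, nm_top, Finset.card_empty, add_zero, mul_one]

/-- the bound of a coefficient -/
theorem term_le (hCX : T_CX) (hWV : T_WV) : ∃ C : ℝ, 1 ≤ C ∧
    ∀ (K : Type) [Field K] [NumberField K] (X M : ℝ) (n : Ideal (𝓞 K)), 0 < X → 1 ≤ M → n ≠ ⊥ →
      ‖lam X M n‖ * nm n ^ (-(1 / 2) : ℝ) ≤ C * (wt (n, (⊤ : Ideal (𝓞 K))) *
        min 1 ((X * M / (nm n * nm (⊤ : Ideal (𝓞 K)))) ^ 2)) := by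
  obtain ⟨C₀, hC₀⟩ := hWV.1 0
  obtain ⟨C₂, hC₂⟩ := hWV.1 2
  refine ⟨max 1 (max C₀ C₂), le_max_left _ _, fun K _ _ X M n hX hM hn => ?_⟩
  have hn1 := nm_ge_one hn
  have hr : 0 ≤ nm n ^ (-(1 / 2) : ℝ) := Real.rpow_nonneg (by linarith) _
  have h0 := lam_le hCX 0 (fun x hx => (hC₀ x hx).1) hX hM hn
  have h2 := lam_le hCX 2 (fun x hx => (hC₂ x hx).1) hX hM hn
  rw [pow_zero, mul_one] at h0
  rw [wt_top, nm_top, mul_one]
  have hc0 : C₀ ≤ max 1 (max C₀ C₂) := (le_max_left _ _).trans (le_max_right _ _)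
  have hc2 : C₂ ≤ max 1 (max C₀ C₂) := (le_max_right _ _).trans (le_max_right _ _)
  generalize max 1 (max C₀ C₂) = C at hc0 hc2 ⊢
  have hp : (0 : ℝ) < 2 ^ (pf n).card := by positivity
  have key : ‖lam X M n‖ ≤ C * 2 ^ (pf n).card * min 1 ((X * M / nm n) ^ 2) := by
    rcases le_total 1 ((X * M / nm n) ^ 2) with h | h
    · rw [min_eq_left h, mul_one]
      exact h0.trans (mul_le_mul_of_nonneg_right hc0 hp.le)
    · rw [min_eq_right h]
      refine h2.trans (mul_le_mul_of_nonneg_right (mul_le_mul_of_nonneg_right hc2 hp.le)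
        (sq_nonneg _))
  calc ‖lam X M n‖ * nm n ^ (-(1 / 2) : ℝ) ≤
        (C * 2 ^ (pf n).card * min 1 ((X * M / nm n) ^ 2)) * nm n ^ (-(1 / 2) : ℝ) :=
        mul_le_mul_of_nonneg_right key hr
    _ = _ := by ring

/-- the pairs `(n, ⊤)` -/
def topEmb (K : Type) [Field K] [NumberField K] :
    Ideal (𝓞 K) ↪ Ideal (𝓞 K) × Ideal (𝓞 K) :=
  ⟨fun n => (n, ⊤), fun _ _ h => congrArg Prod.fst h⟩

theorem sum_le_wt {K : Type} [Field K] [NumberField K] {X M C : ℝ}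
    (h : ∀ n : Ideal (𝓞 K), n ≠ ⊥ → ‖lam X M n‖ * nm n ^ (-(1 / 2) : ℝ) ≤
      C * (wt (n, (⊤ : Ideal (𝓞 K))) * min 1 ((X * M / (nm n * nm (⊤ : Ideal (𝓞 K)))) ^ 2)))
    (s : Finset (Ideal (𝓞 K))) (hs : ∀ n ∈ s, n ≠ ⊥) :
    ∑ n ∈ s, ‖lam X M n‖ * nm n ^ (-(1 / 2) : ℝ) ≤
      C * ∑ p ∈ s.map (topEmb K), wt p * min 1 ((X * M / (nm p.1 * nm p.2)) ^ 2) := by
  rw [Finset.sum_map, Finset.mul_sum]
  exact Finset.sum_le_sum fun n hn => h n (hs n hn)

/-- the parameters are large -/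
theorem large (E : ℕ) (K₀ : ℝ) : ∃ x₀ : ℝ, ∀ (x q : ℝ) (A : ℕ), x₀ ≤ x → 0 < q → 1 ≤ A →
    Real.log x ^ (A + 1) / 2 ≤ Real.log q →
    4 ≤ x ∧ x ≤ q ∧ x ^ E ≤ q ^ (1 / 32 : ℝ) ∧ K₀ ≤ x ^ (1 / 64 : ℝ) := by
  refine ⟨max (Real.exp (64 * E + 2)) ((max K₀ 1) ^ (64 : ℝ)), fun x q A hx hq hA hlq => ?_⟩
  have hx1 := (le_max_left _ _).trans hx
  have hx2 := (le_max_right _ _).trans hx
  have hx0 : 0 < x := lt_of_lt_of_le (Real.exp_pos _) hx1
  have hl : 64 * (E : ℝ) + 2 ≤ Real.log x := by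
    rw [← Real.log_exp (64 * (E : ℝ) + 2)]
    exact Real.log_le_log (Real.exp_pos _) hx1
  have hE0 : (0 : ℝ) ≤ E := Nat.cast_nonneg E
  have hl2 : 2 ≤ Real.log x := by linarith
  have hsq : Real.log x ^ 2 ≤ Real.log x ^ (A + 1) :=
    pow_le_pow_right₀ (by linarith) (by omega)
  have hq2 : Real.log x ^ 2 / 2 ≤ Real.log q := by linarith
  refine ⟨?_, ?_, ?_, ?_⟩
  · have h1 : Real.exp 2 ≤ x := (Real.exp_le_exp.2 (by linarith)).trans hx1
    have h2 : (4 : ℝ) ≤ Real.exp 2 := by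
      have h3 : (2 : ℝ) ≤ Real.exp 1 := by
        have := Real.add_one_le_exp 1
        linarith
      have h4 : Real.exp 2 = Real.exp 1 * Real.exp 1 := by
        rw [← Real.exp_add]
        norm_num
      rw [h4]
      nlinarith
    linarith
  · refine (Real.log_le_log_iff hx0 hq).1 ?_
    nlinarith
  · rw [← Real.rpow_natCast]
    refine (Real.log_le_log_iff (Real.rpow_pos_of_pos hx0 _) (Real.rpow_pos_of_pos hq _)).1 ?_
    rw [Real.log_rpow hx0, Real.log_rpow hq]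
    nlinarith
  · have h1 : (0 : ℝ) < max K₀ 1 := lt_of_lt_of_le one_pos (le_max_right _ _)
    calc K₀ ≤ max K₀ 1 := le_max_left _ _
      _ = ((max K₀ 1) ^ (64 : ℝ)) ^ (1 / 64 : ℝ) := by
        rw [← Real.rpow_mul h1.le]
        norm_num
      _ ≤ x ^ (1 / 64 : ℝ) :=
        Real.rpow_le_rpow (Real.rpow_nonneg h1.le _) hx2 (by norm_num)

/-- the length of the sum -/
theorem len (D Q q N ε₁ : ℝ) (hD : 1 ≤ D) (hq : 1 ≤ q) (hN : 1 ≤ N) (hQ0 : 0 < Q)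
    (hQ : Real.log Q = N * Real.log q) (hε : 0 < ε₁) (hε' : ε₁ < 1 / 2) :
    1 ≤ (D * Q) ^ (9 / 8 : ℝ) * Q ^ (1 / 2 - ε₁) ∧
    ((D * Q) ^ (9 / 8 : ℝ) * Q ^ (1 / 2 - ε₁)) ^ (1 / 2 + 1 / (64 * N)) ≤
      D ^ (9 / 8 : ℝ) * Q ^ (27 / 32 : ℝ) ∧
    ((D * Q) ^ (9 / 8 : ℝ) * Q ^ (1 / 2 - ε₁)) ^ (1 / (64 * N)) ≤
      D ^ (9 / 8 : ℝ) * q ^ (1 / 32 : ℝ) := by
  have hD0 : 0 < D := by linarith
  have hq0 : 0 < q := by linarith
  have hlD : 0 ≤ Real.log D := Real.log_nonneg hD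
  have hlq : 0 ≤ Real.log q := Real.log_nonneg hq
  have hN0 : 0 < N := by linarith
  have hlQ : 0 ≤ Real.log Q := by rw [hQ]; positivity
  have hY0 : 0 < (D * Q) ^ (9 / 8 : ℝ) * Q ^ (1 / 2 - ε₁) := by positivity
  have hlY : Real.log ((D * Q) ^ (9 / 8 : ℝ) * Q ^ (1 / 2 - ε₁)) =
      9 / 8 * Real.log D + (13 / 8 - ε₁) * Real.log Q := by
    rw [Real.log_mul (by positivity) (by positivity), Real.log_rpow (by positivity),
      Real.log_rpow hQ0, Real.log_mul hD0.ne' hQ0.ne']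
    ring
  generalize (D * Q) ^ (9 / 8 : ℝ) * Q ^ (1 / 2 - ε₁) = Y at hY0 hlY ⊢
  set e : ℝ := 1 / (64 * N) with he
  have he0 : 0 < e := by positivity
  have heN : e * N = 1 / 64 := by
    rw [he]
    field_simp
  have he1 : e ≤ 1 / 64 := by nlinarith
  have hlY0 : 0 ≤ Real.log Y := by
    rw [hlY]
    have : 0 ≤ (13 / 8 - ε₁) * Real.log Q := mul_nonneg (by linarith) hlQ
    positivity
  have hlY1 : Real.log Y ≤ 9 / 8 * Real.log D + 13 / 8 * Real.log Q := by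
    rw [hlY]
    nlinarith
  refine ⟨?_, ?_, ?_⟩
  · have := Real.exp_le_exp.2 hlY0
    rwa [Real.exp_zero, Real.exp_log hY0] at this
  · refine (Real.log_le_log_iff (by positivity) (by positivity)).1 ?_
    rw [Real.log_rpow hY0, Real.log_mul (by positivity) (by positivity), Real.log_rpow hD0,
      Real.log_rpow hQ0]
    have h1 : (1 / 2 + e) * Real.log Y ≤
        (1 / 2 + 1 / 64) * (9 / 8 * Real.log D + 13 / 8 * Real.log Q) :=
      mul_le_mul (by linarith) hlY1 hlY0 (by norm_num)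
    linarith
  · refine (Real.log_le_log_iff (by positivity) (by positivity)).1 ?_
    rw [Real.log_rpow hY0, Real.log_mul (by positivity) (by positivity), Real.log_rpow hD0,
      Real.log_rpow hq0]
    have h1 : e * Real.log Y ≤ e * (9 / 8 * Real.log D + 13 / 8 * Real.log Q) :=
      mul_le_mul_of_nonneg_left hlY1 he0.le
    have h2 : e * (13 / 8 * Real.log Q) = 13 / 8 * (1 / 64) * Real.log q := by
      rw [hQ, ← heN]
      ring
    have h3 : e * (9 / 8 * Real.log D) ≤ 9 / 8 * Real.log D := by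
      have : 0 ≤ 9 / 8 * Real.log D := by positivity
      nlinarith
    have h4 : e * (9 / 8 * Real.log D + 13 / 8 * Real.log Q) =
        e * (9 / 8 * Real.log D) + e * (13 / 8 * Real.log Q) := by ring
    linarith

end Pool.Agent.H36.SM
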