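import Pool.Agent.H36.SM.F1qa
import Pool.Agent.H37.CV.All

/-!
# Special moduli, the first moment: the finite sums
-/

set_option autoImplicit false

open NumberField NumberField.InfinitePlace Complex Filter Topology

namespace Pool.Agent.H36.SM

open Pool.Agent.H28.RC Pool.Agent.H25.HK Pool.Agent.H37.CV Pool.Agent.H20.SM
open Pool.Agent.H94.CV.F1 (nm_ge_one nm_top pf_top one_le_discr)

theorem pd_pos {K : Type} [Field K] [NumberField K] (q : ℕ) (d : Ideal (𝓞 K)) :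
    1 ≤ pd q d := by
  classical
  unfold pd
  have h1 : ∀ p ∈ Pd q d, (1 : ℝ) ≤ (p : ℝ) := by
    intro p hp
    have h2 : p ∈ q.primeFactors := (Finset.mem_filter.1 hp).1
    exact_mod_cast (Nat.prime_of_mem_primeFactors h2).one_le
  calc (1 : ℝ) = ∏ p ∈ Pd q d, (1 : ℝ) := by rw [Finset.prod_const_one]
    _ ≤ _ := Finset.prod_le_prod (fun _ _ => zero_le_one) h1

theorem pd_mul_qd {K : Type} [Field K] [NumberField K] {q : ℕ} (hq : Squarefree q)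
    (d : Ideal (𝓞 K)) : pd q d * (qd q d : ℝ) = q := by
  classical
  have h1 : Pd q d ⊆ q.primeFactors := Finset.filter_subset _ _
  have h3 : qd q d * ∏ p ∈ Pd q d, p = q :=
    (Finset.prod_sdiff h1 (f := fun p : ℕ => p)).trans (Nat.prod_primeFactors_of_squarefree hq)
  have h4 : pd q d = ((∏ p ∈ Pd q d, p : ℕ) : ℝ) := by
    unfold pd
    push_cast
    rfl
  rw [h4, mul_comm]
  exact_mod_cast h3

theorem qd_self {K : Type} [Field K] [NumberField K] {q : ℕ} (hq : Squarefree q) :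
    qd q (qi K q) = q := by
  classical
  have h1 : Pd q (qi K q) = ∅ := by
    refine Finset.filter_eq_empty_iff.2 fun p hp => ?_
    rw [not_not, qi, Ideal.span_singleton_le_span_singleton]
    obtain ⟨k, hk⟩ := Nat.dvd_of_mem_primeFactors hp
    refine ⟨(k : 𝓞 K), ?_⟩
    rw [hk]
    push_cast
    rfl
  unfold qd
  rw [h1, Finset.sdiff_empty]
  exact Nat.prod_primeFactors_of_squarefree hq

/-- the first case (abstract numbers) -/
theorem num1 {C Ch c₁ u v Q ucd S η : ℝ} (hC : 0 ≤ C) (hCh : 0 ≤ Ch) (hc₁ : 0 ≤ c₁)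
    (hu : 1 ≤ u) (huv : u ^ 2 ≤ v) (hQ : v ^ 32 = Q) (hη : 0 < η) (hK : C * Ch * (1 + c₁) / η ≤ u)
    (huc0 : 0 ≤ ucd) (huc : ucd ≤ u ^ 2)
    (hS : S ≤ C * (Ch * ((u ^ 16)⁻¹ + c₁ * v ^ 27 * ucd / Q))) : S ≤ η := by
  have hu0 : 0 < u := by linarith
  have hv1 : 1 ≤ v := le_trans (one_le_pow₀ hu) huv
  have hv0 : 0 < v := by linarith
  have h1 : (u ^ 16)⁻¹ ≤ u⁻¹ := by
    refine inv_anti₀ hu0 ?_
    calc u = u ^ 1 := (pow_one u).symm
      _ ≤ u ^ 16 := pow_le_pow_right₀ hu (by norm_num)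
  have h2 : v ^ 27 * ucd / Q ≤ u⁻¹ := by
    rw [← hQ, div_le_iff₀ (by positivity)]
    have h3 : u * ucd ≤ v ^ 5 := by
      calc u * ucd ≤ u * u ^ 2 := mul_le_mul_of_nonneg_left huc hu0.le
        _ = u ^ 3 := by ring
        _ ≤ u ^ 10 := pow_le_pow_right₀ hu (by norm_num)
        _ = (u ^ 2) ^ 5 := by ring
        _ ≤ v ^ 5 := pow_le_pow_left₀ (by positivity) huv 5
    have h4 : ucd ≤ u⁻¹ * v ^ 5 := by
      rw [le_inv_mul_iff₀ hu0]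
      exact h3
    calc v ^ 27 * ucd ≤ v ^ 27 * (u⁻¹ * v ^ 5) := mul_le_mul_of_nonneg_left h4 (by positivity)
      _ = u⁻¹ * v ^ 32 := by ring
  have h5 : (u ^ 16)⁻¹ + c₁ * v ^ 27 * ucd / Q ≤ (1 + c₁) * u⁻¹ := by
    have h6 : c₁ * v ^ 27 * ucd / Q = c₁ * (v ^ 27 * ucd / Q) := by ring
    rw [h6]
    have := mul_le_mul_of_nonneg_left h2 hc₁
    linarith
  have h7 : S ≤ C * Ch * (1 + c₁) * u⁻¹ := by
    refine hS.trans ?_
    have := mul_le_mul_of_nonneg_left h5 (mul_nonneg hC hCh)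
    linarith
  refine h7.trans ?_
  rw [div_le_iff₀ hη] at hK
  rw [mul_inv_le_iff₀ hu0]
  linarith

/-- the term without `pd` -/
theorem num2 {K c₁ u v Q ncq xE : ℝ} (hu : 1 ≤ u) (huv : u ^ 2 ≤ v) (hQ : v ^ 32 = Q)
    (hK : K * c₁ ≤ u) (hncq : 0 < ncq) (hxE : xE ≤ u ^ 2) (hn : Q ≤ xE * ncq) :
    K * (c₁ * v ^ 27) ≤ ncq * v⁻¹ := by
  have hu0 : 0 < u := by linarith
  have hv1 : 1 ≤ v := le_trans (one_le_pow₀ hu) huv
  have hv0 : 0 < v := by linarith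
  have huv' : u ≤ v := by nlinarith
  rw [← div_eq_mul_inv, le_div_iff₀ hv0]
  have h1 : v ^ 32 ≤ v * ncq := by
    rw [hQ]
    exact hn.trans (mul_le_mul_of_nonneg_right (hxE.trans huv) hncq.le)
  have h2 : v ^ 31 ≤ ncq := by
    have h3 : v * v ^ 31 ≤ v * ncq := by
      calc v * v ^ 31 = v ^ 32 := by ring
        _ ≤ _ := h1
    exact le_of_mul_le_mul_left h3 hv0
  calc K * (c₁ * v ^ 27) * v = (K * c₁) * v ^ 28 := by ring
    _ ≤ v * v ^ 28 := mul_le_mul_of_nonneg_right (hK.trans huv') (by positivity)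
    _ = v ^ 29 := by ring
    _ ≤ v ^ 31 := pow_le_pow_right₀ hv1 (by norm_num)
    _ ≤ ncq := h2

/-- the term with `pd` -/
theorem num3 {K w ncd CN ncq P x : ℝ} (hw : 0 ≤ w) (hK0 : 0 ≤ K) (hP : 1 ≤ P) (hx : 1 ≤ x)
    (hncq : 0 ≤ ncq) (hnc : ncd * P ≤ CN * ncq) (hK : K * CN * w ≤ x ^ (1 / 8 : ℝ) *
      P ^ (1 / 4 : ℝ)) : K * w * ncd ≤ ncq * (x ^ (1 / 8 : ℝ) * P ^ (-(3 / 4) : ℝ)) := by
  have hP0 : 0 < P := by linarith
  have h1 : ncd ≤ CN * ncq * P⁻¹ := by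
    rw [← div_eq_mul_inv, le_div_iff₀ hP0]
    exact hnc
  have h2 : P⁻¹ = P ^ (-(3 / 4) : ℝ) * P ^ (-(1 / 4) : ℝ) := by
    rw [← Real.rpow_add hP0, ← Real.rpow_neg_one]
    norm_num
  have h3 : P ^ (1 / 4 : ℝ) * P ^ (-(1 / 4) : ℝ) = 1 := by
    rw [← Real.rpow_add hP0]
    norm_num
  have h4 : 0 ≤ P ^ (-(3 / 4) : ℝ) * P ^ (-(1 / 4) : ℝ) := by positivity
  calc K * w * ncd ≤ K * w * (CN * ncq * P⁻¹) :=
        mul_le_mul_of_nonneg_left h1 (mul_nonneg hK0 hw)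
    _ = (K * CN * w) * (ncq * (P ^ (-(3 / 4) : ℝ) * P ^ (-(1 / 4) : ℝ))) := by
        rw [h2]
        ring
    _ ≤ (x ^ (1 / 8 : ℝ) * P ^ (1 / 4 : ℝ)) *
          (ncq * (P ^ (-(3 / 4) : ℝ) * P ^ (-(1 / 4) : ℝ))) :=
        mul_le_mul_of_nonneg_right hK (mul_nonneg hncq h4)
    _ = ncq * (x ^ (1 / 8 : ℝ) * P ^ (-(3 / 4) : ℝ)) * (P ^ (1 / 4 : ℝ) * P ^ (-(1 / 4) : ℝ)) := by
        ring
    _ = _ := by rw [h3, mul_one]

end Pool.Agent.H36.SM
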