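import Pool.Agent.H36.SM.F1qb

/-!
# Special moduli, the first moment: the finite sums, continued
-/

set_option autoImplicit false

open NumberField NumberField.InfinitePlace Complex Filter Topology

namespace Pool.Agent.H36.SM

open Pool.Agent.H28.RC Pool.Agent.H25.HK Pool.Agent.H37.CV Pool.Agent.H20.SM
open Pool.Agent.H94.CV.F1 (nm_ge_one nm_top pf_top one_le_discr)

theorem pow_of_rpow {a : ℝ} (ha : 0 < a) (k : ℕ) (r s : ℝ) (h : r * k = s) :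
    (a ^ r) ^ k = a ^ s := by
  rw [← Real.rpow_natCast, ← Real.rpow_mul ha.le, h]

/-- the facts about the parameters which are used below -/
structure Par (F : Type) [Field F] [NumberField F] (ε₁ C Ch Ch1 c₁ CN η e : ℝ) (x : ℝ) (q : ℕ)
    (u v : ℝ) : Prop where
  sq : Squarefree q
  x4 : 4 ≤ x
  xq : x ≤ q
  u0 : 1 ≤ u
  u2 : u ^ 2 = (q : ℝ) ^ (1 / 32 : ℝ)
  u8 : u ^ 8 = (q : ℝ) ^ (1 / 8 : ℝ)
  u16 : (u ^ 16)⁻¹ = (q : ℝ) ^ (-(1 / 4) : ℝ)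
  uv : u ^ 2 ≤ v
  v32 : v ^ 32 = nm (qi F q)
  vi : v⁻¹ = nm (qi F q) ^ (-(1 / 32) : ℝ)
  mo : 1 ≤ Mo F ε₁ q
  xr : (q : ℝ) ≤ Xr F q
  y1 : 1 ≤ Xr F q * Mo F ε₁ q
  y2 : (Xr F q * Mo F ε₁ q) ^ (1 / 2 + e) ≤ c₁ * v ^ 27
  y3 : (Xr F q * Mo F ε₁ q) ^ e ≤ c₁ * u ^ 2
  nc0 : 0 < nc (qi F q) (qi F q)
  uc1 : ∀ d : Ideal (𝓞 F), qi F q ≤ d → (uc d : ℝ) ≤ u ^ 2
  nc1 : nm (qi F q) ≤ u ^ 2 * nc (qi F q) (qi F q)
  nc2 : ∀ d : Ideal (𝓞 F), qi F q ≤ d → (nc (qi F q) d : ℝ) * uc d ≤ CN * nm d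
  nc3 : ∀ d : Ideal (𝓞 F), qi F q ≤ d →
    (nc (qi F q) d : ℝ) * pd q d ≤ CN * nc (qi F q) (qi F q)
  k1 : C * Ch * (1 + c₁) / η ≤ u
  k2 : (C + C * Ch) * CN ≤ x ^ (1 / 64 : ℝ)
  k3 : C * Ch * CN * c₁ ≤ u
  k4 : C * Ch1 * CN * c₁ ≤ u

theorem par_exists (hNCR : T_NCR) (hPAR : T_PAR) (F : Type) [Field F] [NumberField F]
    [IsTotallyComplex F] [IsGalois ℚ F] (A : ℕ) (ε₁ η C Ch Ch1 : ℝ) (hA : 1 ≤ A) (hε : 0 < ε₁)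
    (hε' : ε₁ < 1 / 2) :
    ∃ c₁ CN x₀ : ℝ, 0 ≤ c₁ ∧ 1 ≤ CN ∧ ∀ (x : ℝ) (q : ℕ), x₀ ≤ x → Sp F A x q →
      ∃ u v : ℝ, Par F ε₁ C Ch Ch1 c₁ CN η (1 / (64 * (Module.finrank ℚ F : ℝ))) x q u v := by
  set N : ℝ := (Module.finrank ℚ F : ℝ) with hN
  have hN1 : 1 ≤ N := by
    have : 1 ≤ Module.finrank ℚ F := Module.finrank_pos
    rw [hN]
    exact_mod_cast this
  obtain ⟨CN, E, hCN, -, hNC⟩ := hNCR F
  obtain ⟨x₁, hx₁⟩ := hNC A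
  obtain ⟨x₂, hx₂⟩ := hPAR F A
  set D : ℝ := |(discr F : ℝ)| with hD
  have hD1 : 1 ≤ D := one_le_discr F
  have hD0 : 0 < D := by linarith
  set c₁ : ℝ := D ^ (9 / 8 : ℝ) with hc₁
  have hc₁0 : 0 ≤ c₁ := by positivity
  set K₀ : ℝ := max (max (C * Ch * (1 + c₁) / η) ((C + C * Ch) * CN))
    (max (C * Ch * CN * c₁) (C * Ch1 * CN * c₁)) with hK₀
  obtain ⟨x₃, hx₃⟩ := large E K₀
  refine ⟨c₁, CN, max x₁ (max x₂ x₃), hc₁0, hCN, fun x q hx hSp => ?_⟩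
  obtain ⟨hn1, hn2, hn3⟩ := hx₁ x q ((le_max_left _ _).trans hx) hSp
  obtain ⟨hp1, -, -, hp4⟩ := hx₂ x q
    (((le_max_left _ _).trans (le_max_right _ _)).trans hx) hSp
  have hq0' : 0 < q := Nat.pos_of_ne_zero hSp.sq.1.ne_zero
  have hq0 : (0 : ℝ) < q := by exact_mod_cast hq0'
  obtain ⟨hx4, hxq, hxE, hK⟩ := hx₃ x q A
    (((le_max_right _ _).trans (le_max_right _ _)).trans hx) hq0 hA hp1
  have hq1 : (1 : ℝ) ≤ q := by linarith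
  have hqb : qi F q ≠ ⊥ := by
    rw [qi, Ne, Ideal.span_singleton_eq_bot]
    exact_mod_cast hq0'.ne'
  have hQ1 : 1 ≤ nm (qi F q) := nm_ge_one hqb
  have hlq : 0 ≤ Real.log q := Real.log_nonneg hq1
  set Q : ℝ := nm (qi F q) with hQ
  have hQ0 : 0 < Q := by linarith
  have hqQ : (q : ℝ) ≤ Q := by
    refine (Real.log_le_log_iff hq0 hQ0).1 ?_
    rw [hp4]
    nlinarith
  obtain ⟨hy1, hy2, hy3⟩ := len D Q q N ε₁ hD1 hq1 hN1 hQ0 hp4 hε hε'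
  have hXr : Xr F q = (D * Q) ^ (9 / 8 : ℝ) := rfl
  have hMo : Mo F ε₁ q = Q ^ (1 / 2 - ε₁) := rfl
  have hu1 : (1 : ℝ) ≤ (q : ℝ) ^ (1 / 64 : ℝ) := Real.one_le_rpow hq1 (by norm_num)
  have hux : x ^ (1 / 64 : ℝ) ≤ (q : ℝ) ^ (1 / 64 : ℝ) :=
    Real.rpow_le_rpow (by linarith) hxq (by norm_num)
  have hu2 : ((q : ℝ) ^ (1 / 64 : ℝ)) ^ 2 = (q : ℝ) ^ (1 / 32 : ℝ) :=
    pow_of_rpow hq0 2 _ _ (by norm_num)
  have hk : ∀ k : ℝ, k ≤ K₀ → k ≤ (q : ℝ) ^ (1 / 64 : ℝ) := fun k h => (h.trans hK).trans hux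
  refine ⟨(q : ℝ) ^ (1 / 64 : ℝ), Q ^ (1 / 32 : ℝ), ?_⟩
  refine
    { sq := hSp.sq.1, x4 := hx4, xq := hxq, u0 := hu1, u2 := hu2,
      u8 := pow_of_rpow hq0 8 _ _ (by norm_num), u16 := ?_, uv := ?_,
      v32 := ?_, vi := ?_, mo := ?_, xr := ?_, y1 := ?_, y2 := ?_, y3 := ?_, nc0 := hn1,
      uc1 := ?_, nc1 := ?_, nc2 := fun d hd => (hn3 d hd).2.1,
      nc3 := fun d hd => (hn3 d hd).2.2, k1 := hk _ ?_, k2 := le_trans ?_ hK, k3 := hk _ ?_,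
      k4 := hk _ ?_ }
  · rw [pow_of_rpow hq0 16 _ (1 / 4) (by norm_num), Real.rpow_neg hq0.le]
  · rw [hu2]
    exact Real.rpow_le_rpow hq0.le hqQ (by norm_num)
  · rw [pow_of_rpow hQ0 32 _ 1 (by norm_num), Real.rpow_one]
  · rw [Real.rpow_neg hQ0.le]
  · rw [hMo]
    exact Real.one_le_rpow hQ1 (by linarith)
  · rw [hXr]
    have h1 : (q : ℝ) ≤ D * Q := by nlinarith
    have h2 : 1 ≤ D * Q := by nlinarith
    calc (q : ℝ) ≤ D * Q := h1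
      _ = (D * Q) ^ (1 : ℝ) := (Real.rpow_one _).symm
      _ ≤ (D * Q) ^ (9 / 8 : ℝ) := Real.rpow_le_rpow_of_exponent_le h2 (by norm_num)
  · rw [hXr, hMo]
    exact hy1
  · rw [hXr, hMo, pow_of_rpow hQ0 27 _ (27 / 32) (by norm_num)]
    exact hy2
  · rw [hXr, hMo, hu2]
    exact hy3
  · intro d hd
    rw [hu2]
    exact (hn3 d hd).1.trans hxE
  · rw [hu2]
    exact hn2.trans (mul_le_mul_of_nonneg_right hxE (Nat.cast_nonneg _))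
  · exact (le_max_left _ _).trans (le_max_left _ _)
  · exact (le_max_right _ _).trans (le_max_left _ _)
  · exact (le_max_left _ _).trans (le_max_right _ _)
  · exact (le_max_right _ _).trans (le_max_right _ _)

end Pool.Agent.H36.SM
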