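import Pool.Agent.H36.SM.F1qc

/-!
# Special moduli, the first moment: the two bounds
-/

set_option autoImplicit false

open NumberField NumberField.InfinitePlace Complex Filter Topology

namespace Pool.Agent.H36.SM

open Pool.Agent.H28.RC Pool.Agent.H25.HK Pool.Agent.H37.CV Pool.Agent.H20.SM
open Pool.Agent.H94.CV.F1 (nm_ge_one nm_top pf_top one_le_discr)

/-- the bound of the terms -/
def Trm (F : Type) [Field F] [NumberField F] (C : ℝ) : Prop :=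
  ∀ (X M : ℝ) (n : Ideal (𝓞 F)), 0 < X → 1 ≤ M → n ≠ ⊥ →
      ‖lam X M n‖ * nm n ^ (-(1 / 2) : ℝ) ≤ C * (wt (n, (⊤ : Ideal (𝓞 F))) *
        min 1 ((X * M / (nm n * nm (⊤ : Ideal (𝓞 F)))) ^ 2))

/-- the use of `CHT` -/
theorem use_cht {F : Type} [Field F] [NumberField F] {C Ch e : ℝ}
    (hC : 0 ≤ C) (hT : Trm F C) (hCh : ∀ (m d : Ideal (𝓞 F)) (L Y : ℝ)
      (X : Finset (Ideal (𝓞 F) × Ideal (𝓞 F))), m ≠ ⊥ → m ≤ d →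
      2 ≤ L → 1 ≤ Y → (uc d : ℝ) ≤ L ^ (1 / 16 : ℝ) →
      (∀ p ∈ X, p ∈ CP m d ∧ L ≤ nm p.1 * nm p.2) →
      ∑ p ∈ X, wt p * min 1 ((Y / (nm p.1 * nm p.2)) ^ 2) ≤
        Ch * (L ^ (-(1 / 4) : ℝ) + Y ^ (1 / 2 + e) * uc d / nm d))
    (m d : Ideal (𝓞 F)) (L X M : ℝ) (s : Finset (Ideal (𝓞 F))) (hm : m ≠ ⊥) (hmd : m ≤ d)
    (hL : 2 ≤ L) (hX : 0 < X) (hM : 1 ≤ M) (hY : 1 ≤ X * M) (huc : (uc d : ℝ) ≤ L ^ (1 / 16 : ℝ))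
    (hs : ∀ n ∈ s, (n, (⊤ : Ideal (𝓞 F))) ∈ CP m d ∧ L ≤ nm n) :
    ∑ n ∈ s, ‖lam X M n‖ * nm n ^ (-(1 / 2) : ℝ) ≤
      C * (Ch * (L ^ (-(1 / 4) : ℝ) + (X * M) ^ (1 / 2 + e) * uc d / nm d)) := by
  refine (sum_le_wt (fun n hn => hT X M n hX hM hn) s (fun n hn => (hs n hn).1.1)).trans ?_
  refine mul_le_mul_of_nonneg_left ?_ hC
  refine hCh m d L (X * M) _ hm hmd hL hY huc ?_
  intro p hp
  rw [Finset.mem_map] at hp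
  obtain ⟨n, hn, rfl⟩ := hp
  refine ⟨(hs n hn).1, ?_⟩
  show L ≤ nm n * nm (⊤ : Ideal (𝓞 F))
  rw [nm_top, mul_one]
  exact (hs n hn).2

/-- the use of `CH1` -/
theorem use_ch1 {F : Type} [Field F] [NumberField F] {C Ch1 e : ℝ}
    (hC : 0 ≤ C) (hT : Trm F C) (hCh : ∀ (m d : Ideal (𝓞 F)) (Y : ℝ)
      (X : Finset (Ideal (𝓞 F) × Ideal (𝓞 F))), m ≠ ⊥ → m ≤ d →
      1 ≤ Y → (∀ p ∈ X, p ∈ CP m d) →
      ∑ p ∈ X, wt p * min 1 ((Y / (nm p.1 * nm p.2)) ^ 2) ≤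
        Ch1 * Y ^ e * uc d * (1 + Y ^ (1 / 2 : ℝ) / nm d))
    (m d : Ideal (𝓞 F)) (X M : ℝ) (s : Finset (Ideal (𝓞 F))) (hm : m ≠ ⊥) (hmd : m ≤ d)
    (hX : 0 < X) (hM : 1 ≤ M) (hY : 1 ≤ X * M)
    (hs : ∀ n ∈ s, (n, (⊤ : Ideal (𝓞 F))) ∈ CP m d) :
    ∑ n ∈ s, ‖lam X M n‖ * nm n ^ (-(1 / 2) : ℝ) ≤
      C * (Ch1 * (X * M) ^ e * uc d * (1 + (X * M) ^ (1 / 2 : ℝ) / nm d)) := by
  refine (sum_le_wt (fun n hn => hT X M n hX hM hn) s (fun n hn => (hs n hn).1)).trans ?_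
  refine mul_le_mul_of_nonneg_left ?_ hC
  refine hCh m d (X * M) _ hm hmd hY ?_
  intro p hp
  rw [Finset.mem_map] at hp
  obtain ⟨n, hn, rfl⟩ := hp
  exact hs n hn

/-- the sum modulo `q` -/
theorem sum_q {F : Type} [Field F] [NumberField F] [IsTotallyComplex F] [IsGalois ℚ F]
    (hNCG : T_NCG) {ε₁ C Ch Ch1 c₁ CN η e x u v : ℝ} {q A : ℕ}
    (hp : Par F ε₁ C Ch Ch1 c₁ CN η e x q u v) (hSp : Sp F A x q) (hη : 0 < η) (hc₁ : 0 ≤ c₁)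
    (hC : 0 ≤ C) (hCh0 : 0 ≤ Ch) (hT : Trm F C) (hCh : ∀ (m d : Ideal (𝓞 F)) (L Y : ℝ)
      (X : Finset (Ideal (𝓞 F) × Ideal (𝓞 F))), m ≠ ⊥ → m ≤ d →
      2 ≤ L → 1 ≤ Y → (uc d : ℝ) ≤ L ^ (1 / 16 : ℝ) →
      (∀ p ∈ X, p ∈ CP m d ∧ L ≤ nm p.1 * nm p.2) →
      ∑ p ∈ X, wt p * min 1 ((Y / (nm p.1 * nm p.2)) ^ 2) ≤
        Ch * (L ^ (-(1 / 4) : ℝ) + Y ^ (1 / 2 + e) * uc d / nm d))
    (s : Finset (Ideal (𝓞 F)))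
    (hs : ∀ n ∈ s, (n, (⊤ : Ideal (𝓞 F))) ∈ CP (qi F q) (qi F q) ∧ n ≠ ⊤) :
    ∑ n ∈ s, ‖lam (Xr F q) (Mo F ε₁ q) n‖ * nm n ^ (-(1 / 2) : ℝ) ≤ η := by
  have hq4 : (4 : ℝ) ≤ q := hp.x4.trans hp.xq
  have hq0 : (0 : ℝ) < q := by linarith
  have hqb : qi F q ≠ ⊥ := by
    rw [qi, Ne, Ideal.span_singleton_eq_bot]
    have : (q : ℝ) ≠ 0 := hq0.ne'
    exact_mod_cast this
  have hX0 : 0 < Xr F q := by linarith [hp.xr]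
  have huc := hp.uc1 (qi F q) le_rfl
  have hu0 := hp.u0
  have h16 : (uc (qi F q) : ℝ) ≤ (q : ℝ) ^ (1 / 16 : ℝ) := by
    refine huc.trans ?_
    rw [hp.u2]
    exact Real.rpow_le_rpow_of_exponent_le (by linarith) (by norm_num)
  have h1 := use_cht hC hT hCh (qi F q) (qi F q) q (Xr F q) (Mo F ε₁ q) s hqb le_rfl (by linarith)
    hX0 hp.mo hp.y1 h16 (by
      intro n hn
      obtain ⟨h2, h3⟩ := hs n hn
      refine ⟨h2, ?_⟩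
      have h4 := (hNCG F q hSp.sq (qi F q) le_rfl (n, ⊤) h2).2.2 rfl
      rcases h4 with h4 | h4
      · exact absurd h4 h3
      · rw [qd_self hp.sq] at h4
        exact h4.le)
  have huc0 : (0 : ℝ) ≤ uc (qi F q) := Nat.cast_nonneg _
  have hQ1 : 1 ≤ nm (qi F q) := nm_ge_one hqb
  refine num1 hC hCh0 hc₁ hp.u0 hp.uv hp.v32 hη hp.k1 huc0 huc (h1.trans ?_)
  refine mul_le_mul_of_nonneg_left (mul_le_mul_of_nonneg_left ?_ hCh0) hC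
  rw [hp.u16]
  have h5 : (Xr F q * Mo F ε₁ q) ^ (1 / 2 + e) * uc (qi F q) / nm (qi F q) ≤
      c₁ * v ^ 27 * uc (qi F q) / nm (qi F q) := by
    refine div_le_div_of_nonneg_right ?_ (by linarith)
    exact mul_le_mul_of_nonneg_right hp.y2 huc0
  linarith

end Pool.Agent.H36.SM
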