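import Pool.Agent.H36.SM.F1qd

/-!
# Special moduli, the first moment: proper divisors
-/

set_option autoImplicit false

open NumberField NumberField.InfinitePlace Complex Filter Topology

namespace Pool.Agent.H36.SM

open Pool.Agent.H28.RC Pool.Agent.H25.HK Pool.Agent.H37.CV Pool.Agent.H20.SM
open Pool.Agent.H94.CV.F1 (nm_ge_one nm_top pf_top one_le_discr)

/-- the term at `⊤` -/
theorem term_top {F : Type} [Field F] [NumberField F] {C : ℝ} (hC : 0 ≤ C) (hT : Trm F C)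
    {X M : ℝ} (hX : 0 < X) (hM : 1 ≤ M) :
    ‖lam X M (⊤ : Ideal (𝓞 F))‖ * nm (⊤ : Ideal (𝓞 F)) ^ (-(1 / 2) : ℝ) ≤ C := by
  have h1 := hT X M (⊤ : Ideal (𝓞 F)) hX hM top_ne_bot
  rw [wt_top, pf_top, nm_top, Finset.card_empty, pow_zero, Real.one_rpow, one_mul, one_mul] at h1
  rw [nm_top, Real.one_rpow]
  calc ‖lam X M (⊤ : Ideal (𝓞 F))‖ * 1 ≤ C * min 1 ((X * M / 1) ^ 2) := h1
    _ ≤ C * 1 := mul_le_mul_of_nonneg_left (min_le_left _ _) hC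
    _ = C := mul_one C

/-- the sum modulo a proper divisor -/
theorem sum_d {F : Type} [Field F] [NumberField F] [IsTotallyComplex F] [IsGalois ℚ F]
    (hNCG : T_NCG) {ε₁ C Ch Ch1 c₁ CN η e x u v : ℝ} {q A : ℕ}
    (hp : Par F ε₁ C Ch Ch1 c₁ CN η e x q u v) (hSp : Sp F A x q) (hc₁ : 0 ≤ c₁)
    (hC : 0 ≤ C) (hCh0 : 0 ≤ Ch) (hCh10 : 0 ≤ Ch1) (hT : Trm F C)
    (hCh : ∀ (m d : Ideal (𝓞 F)) (L Y : ℝ)
      (X : Finset (Ideal (𝓞 F) × Ideal (𝓞 F))), m ≠ ⊥ → m ≤ d →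
      2 ≤ L → 1 ≤ Y → (uc d : ℝ) ≤ L ^ (1 / 16 : ℝ) →
      (∀ p ∈ X, p ∈ CP m d ∧ L ≤ nm p.1 * nm p.2) →
      ∑ p ∈ X, wt p * min 1 ((Y / (nm p.1 * nm p.2)) ^ 2) ≤
        Ch * (L ^ (-(1 / 4) : ℝ) + Y ^ (1 / 2 + e) * uc d / nm d))
    (hCh1 : ∀ (m d : Ideal (𝓞 F)) (Y : ℝ)
      (X : Finset (Ideal (𝓞 F) × Ideal (𝓞 F))), m ≠ ⊥ → m ≤ d →
      1 ≤ Y → (∀ p ∈ X, p ∈ CP m d) →
      ∑ p ∈ X, wt p * min 1 ((Y / (nm p.1 * nm p.2)) ^ 2) ≤
        Ch1 * Y ^ e * uc d * (1 + Y ^ (1 / 2 : ℝ) / nm d))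
    (d : Ideal (𝓞 F)) (hd : qi F q ≤ d) (s : Finset (Ideal (𝓞 F)))
    (hs : ∀ n ∈ s, (n, (⊤ : Ideal (𝓞 F))) ∈ CP (qi F q) d) :
    (nc (qi F q) d : ℝ) *
      ∑ n ∈ s, ‖lam (Xr F q) (Mo F ε₁ q) n‖ * nm n ^ (-(1 / 2) : ℝ) ≤
    nc (qi F q) (qi F q) * (x ^ (1 / 8 : ℝ) * pd q d ^ (-(3 / 4) : ℝ) +
      nm (qi F q) ^ (-(1 / 32) : ℝ)) := by
  classical
  have hx4 := hp.x4
  have hq4 : (4 : ℝ) ≤ q := hp.x4.trans hp.xq
  have hq0 : (0 : ℝ) < q := by linarith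
  have hqb : qi F q ≠ ⊥ := by
    rw [qi, Ne, Ideal.span_singleton_eq_bot]
    have : (q : ℝ) ≠ 0 := hq0.ne'
    exact_mod_cast this
  have hdb : d ≠ ⊥ := by
    rintro rfl
    exact hqb (le_bot_iff.1 hd)
  have hX0 : 0 < Xr F q := by linarith [hp.xr]
  have huc := hp.uc1 d hd
  have hu0 := hp.u0
  have huc0 : (0 : ℝ) ≤ uc d := Nat.cast_nonneg _
  have hncd0 : (0 : ℝ) ≤ nc (qi F q) d := Nat.cast_nonneg _
  have hncq : (0 : ℝ) < nc (qi F q) (qi F q) := by exact_mod_cast hp.nc0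
  have hnd1 : 1 ≤ nm d := nm_ge_one hdb
  have hnd0 : 0 < nm d := by linarith
  have hP1 : 1 ≤ pd q d := pd_pos q d
  have hP0 : 0 < pd q d := by linarith
  have hPq := pd_mul_qd hp.sq d
  have hratio : (nc (qi F q) d : ℝ) * uc d / nm d ≤ CN := by
    rw [div_le_iff₀ hnd0]
    exact hp.nc2 d hd
  have hv0 : 0 ≤ v := le_trans (by positivity) hp.uv
  have hx8 : 1 ≤ x ^ (1 / 8 : ℝ) := Real.one_le_rpow (by linarith) (by norm_num)
  have hP4 : 1 ≤ pd q d ^ (1 / 4 : ℝ) := Real.one_le_rpow hP1 (by norm_num)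
  rw [mul_add, ← hp.vi]
  set Y := Xr F q * Mo F ε₁ q with hY
  have hY1 : 1 ≤ Y := hp.y1
  have hY0 : 0 < Y := by linarith
  have hYT : Y ^ (1 / 2 + e) * ((nc (qi F q) d : ℝ) * uc d / nm d) ≤ c₁ * v ^ 27 * CN :=
    mul_le_mul hp.y2 hratio (by positivity) (by positivity)
  by_cases hcase : (q : ℝ) ≤ (qd q d : ℝ) ^ 2
  · -- the large divisors
    have hqd0 : (0 : ℝ) ≤ qd q d := Nat.cast_nonneg _
    have hqd2 : (2 : ℝ) ≤ qd q d := by nlinarith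
    have h16 : (uc d : ℝ) ≤ (qd q d : ℝ) ^ (1 / 16 : ℝ) := by
      refine huc.trans ?_
      rw [hp.u2]
      calc (q : ℝ) ^ (1 / 32 : ℝ) ≤ ((qd q d : ℝ) ^ 2) ^ (1 / 32 : ℝ) :=
            Real.rpow_le_rpow hq0.le hcase (by norm_num)
        _ = (qd q d : ℝ) ^ (1 / 16 : ℝ) := by
            rw [← Real.rpow_natCast, ← Real.rpow_mul hqd0]
            norm_num
    have h1 := use_cht hC hT hCh (qi F q) d (qd q d) (Xr F q) (Mo F ε₁ q) (s.erase ⊤) hqb hd hqd2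
      hX0 hp.mo hY1 h16 (by
        intro n hn
        rw [Finset.mem_erase] at hn
        refine ⟨hs n hn.2, ?_⟩
        have h4 := (hNCG F q hSp.sq d hd (n, ⊤) (hs n hn.2)).2.2 rfl
        rcases h4 with h4 | h4
        · exact absurd h4 hn.1
        · exact h4.le)
    have hL4 : (qd q d : ℝ) ^ (-(1 / 4) : ℝ) ≤ 1 :=
      Real.rpow_le_one_of_one_le_of_nonpos (by linarith) (by norm_num)
    have htop := term_top hC hT hX0 hp.mo
    have hsum : ∑ n ∈ s, ‖lam (Xr F q) (Mo F ε₁ q) n‖ * nm n ^ (-(1 / 2) : ℝ) ≤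
        C + ∑ n ∈ s.erase ⊤, ‖lam (Xr F q) (Mo F ε₁ q) n‖ * nm n ^ (-(1 / 2) : ℝ) := by
      by_cases hmem : (⊤ : Ideal (𝓞 F)) ∈ s
      · rw [← Finset.add_sum_erase s _ hmem]
        exact add_le_add htop le_rfl
      · rw [Finset.erase_eq_of_notMem hmem]
        linarith
    have h2 : (nc (qi F q) d : ℝ) *
        ∑ n ∈ s, ‖lam (Xr F q) (Mo F ε₁ q) n‖ * nm n ^ (-(1 / 2) : ℝ) ≤
        (C + C * Ch) * 1 * nc (qi F q) d + C * Ch * CN * (c₁ * v ^ 27) := by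
      calc (nc (qi F q) d : ℝ) *
          ∑ n ∈ s, ‖lam (Xr F q) (Mo F ε₁ q) n‖ * nm n ^ (-(1 / 2) : ℝ) ≤
          (nc (qi F q) d : ℝ) * (C + C * (Ch * (1 + Y ^ (1 / 2 + e) * uc d / nm d))) := by
            refine mul_le_mul_of_nonneg_left (hsum.trans ?_) hncd0
            refine add_le_add le_rfl (h1.trans ?_)
            refine mul_le_mul_of_nonneg_left (mul_le_mul_of_nonneg_left ?_ hCh0) hC
            exact add_le_add hL4 le_rfl
        _ = (C + C * Ch) * 1 * nc (qi F q) d +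
            C * Ch * (Y ^ (1 / 2 + e) * ((nc (qi F q) d : ℝ) * uc d / nm d)) := by ring
        _ ≤ (C + C * Ch) * 1 * nc (qi F q) d + C * Ch * (c₁ * v ^ 27 * CN) :=
            add_le_add le_rfl (mul_le_mul_of_nonneg_left hYT (mul_nonneg hC hCh0))
        _ = _ := by ring
    refine h2.trans (add_le_add ?_ ?_)
    · refine num3 zero_le_one (by positivity) hP1 (by linarith) hncq.le (hp.nc3 d hd) ?_
      rw [mul_one]
      calc (C + C * Ch) * CN ≤ x ^ (1 / 64 : ℝ) := hp.k2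
        _ ≤ x ^ (1 / 8 : ℝ) := Real.rpow_le_rpow_of_exponent_le (by linarith) (by norm_num)
        _ = x ^ (1 / 8 : ℝ) * 1 := (mul_one _).symm
        _ ≤ _ := mul_le_mul_of_nonneg_left hP4 (by positivity)
    · exact num2 hp.u0 hp.uv hp.v32 hp.k3 hncq le_rfl hp.nc1
  · -- the small divisors
    rw [not_le] at hcase
    have h1 := use_ch1 hC hT hCh1 (qi F q) d (Xr F q) (Mo F ε₁ q) s hqb hd hX0 hp.mo hY1 hs
    have hPbig : u ^ 8 ≤ pd q d ^ (1 / 4 : ℝ) := by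
      have h3 : (q : ℝ) ≤ pd q d ^ 2 := by
        have h4 : (q : ℝ) ^ 2 = pd q d ^ 2 * (qd q d : ℝ) ^ 2 := by rw [← hPq]; ring
        have h5 : (q : ℝ) ^ 2 ≤ pd q d ^ 2 * q := by
          rw [h4]
          exact mul_le_mul_of_nonneg_left hcase.le (by positivity)
        have h6 : (q : ℝ) * q ≤ pd q d ^ 2 * q := by
          calc (q : ℝ) * q = (q : ℝ) ^ 2 := by ring
            _ ≤ _ := h5
        exact le_of_mul_le_mul_right h6 hq0
      rw [hp.u8]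
      calc (q : ℝ) ^ (1 / 8 : ℝ) ≤ (pd q d ^ 2) ^ (1 / 8 : ℝ) :=
            Real.rpow_le_rpow hq0.le h3 (by norm_num)
        _ = pd q d ^ (1 / 4 : ℝ) := by
            rw [← Real.rpow_natCast, ← Real.rpow_mul hP0.le]
            norm_num
    have hYe0 : 0 ≤ Y ^ e := Real.rpow_nonneg hY0.le _
    have h2 : (nc (qi F q) d : ℝ) *
        ∑ n ∈ s, ‖lam (Xr F q) (Mo F ε₁ q) n‖ * nm n ^ (-(1 / 2) : ℝ) ≤
        C * Ch1 * (c₁ * u ^ 4) * nc (qi F q) d + C * Ch1 * CN * (c₁ * v ^ 27) := by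
      have h7 : Y ^ e * uc d ≤ c₁ * u ^ 4 := by
        calc Y ^ e * uc d ≤ (c₁ * u ^ 2) * u ^ 2 := mul_le_mul hp.y3 huc huc0 (by positivity)
          _ = _ := by ring
      calc (nc (qi F q) d : ℝ) *
          ∑ n ∈ s, ‖lam (Xr F q) (Mo F ε₁ q) n‖ * nm n ^ (-(1 / 2) : ℝ) ≤
          (nc (qi F q) d : ℝ) *
            (C * (Ch1 * Y ^ e * uc d * (1 + Y ^ (1 / 2 : ℝ) / nm d))) :=
            mul_le_mul_of_nonneg_left h1 hncd0
        _ = C * Ch1 * (Y ^ e * uc d) * nc (qi F q) d +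
            C * Ch1 * ((Y ^ (1 / 2 : ℝ) * Y ^ e) * ((nc (qi F q) d : ℝ) * uc d / nm d)) := by
            ring
        _ = C * Ch1 * (Y ^ e * uc d) * nc (qi F q) d +
            C * Ch1 * (Y ^ (1 / 2 + e) * ((nc (qi F q) d : ℝ) * uc d / nm d)) := by
            rw [Real.rpow_add hY0]
        _ ≤ C * Ch1 * (c₁ * u ^ 4) * nc (qi F q) d + C * Ch1 * (c₁ * v ^ 27 * CN) := by
            refine add_le_add ?_ (mul_le_mul_of_nonneg_left hYT (mul_nonneg hC hCh10))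
            exact mul_le_mul_of_nonneg_right
              (mul_le_mul_of_nonneg_left h7 (mul_nonneg hC hCh10)) hncd0
        _ = _ := by ring
    refine h2.trans (add_le_add ?_ ?_)
    · refine num3 (by positivity) (mul_nonneg hC hCh10) hP1 (by linarith) hncq.le
        (hp.nc3 d hd) ?_
      calc C * Ch1 * CN * (c₁ * u ^ 4) = (C * Ch1 * CN * c₁) * u ^ 4 := by ring
        _ ≤ u * u ^ 4 := mul_le_mul_of_nonneg_right hp.k4 (by positivity)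
        _ = u ^ 5 := by ring
        _ ≤ u ^ 8 := pow_le_pow_right₀ hu0 (by norm_num)
        _ ≤ pd q d ^ (1 / 4 : ℝ) := hPbig
        _ = 1 * pd q d ^ (1 / 4 : ℝ) := (one_mul _).symm
        _ ≤ _ := mul_le_mul_of_nonneg_right hx8 (by positivity)
    · exact num2 hp.u0 hp.uv hp.v32 hp.k4 hncq le_rfl hp.nc1

end Pool.Agent.H36.SM
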